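import Mathlib
import Pool.Agent.Lib.H62z.Timed

set_option autoImplicit false

/-!
Almost all orbits of the `3x+1` map, in natural density and with a power saving.

(1) For every `ε > 0` there are `c, C > 0` such that for all `X, x ≥ 1` all but at most
`C * x * X^(-c)` of the integers `1 ≤ n ≤ x` have an iterate `T^k(n) ≤ X` smaller than all the
earlier terms `T^j(n)`, `j < k`, with
`|k - (2 / log (4/3)) * log (n / T^k(n))| ≤ ε * log n + C`.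
(2) If `f(n)` tends to infinity and `b > 2 / log (4/3)`, the set of `n` with `f(n) ≤ T^k(n)` for
all `k ≤ b * log n` has natural density zero.
(3) The set of `n` that reach `1`, but with a total stopping time `k` outside
`|k - (2 / log (4/3)) * log n| ≤ ε * log n`, has natural density zero.
-/

namespace Pool.Agent.Results.MP_a1568a_nt.AlmostAll

open Filter

/-- The `3x+1` map. -/
def T (m : ℕ) : ℕ := if m % 2 = 0 then m / 2 else (3 * m + 1) / 2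

theorem T_eq : T = H62z.T := rfl

theorem result :
    (∀ ε : ℝ, 0 < ε → ∃ c C : ℝ, 0 < c ∧ 0 < C ∧ ∀ X x : ℕ, 1 ≤ X → 1 ≤ x →
      (Set.ncard {n : ℕ | 1 ≤ n ∧ n ≤ x ∧ ¬ ∃ k : ℕ, T^[k] n ≤ X ∧ (∀ j < k, T^[k] n < T^[j] n) ∧
        |(k : ℝ) - 2 / Real.log (4 / 3) * Real.log ((n : ℝ) / (T^[k] n : ℝ))| ≤
          ε * Real.log (n : ℝ) + C} : ℝ) ≤ C * (x : ℝ) * (X : ℝ) ^ (-c)) ∧
    (∀ f : ℕ → ℝ, Tendsto f atTop atTop → ∀ b : ℝ, 2 / Real.log (4 / 3) < b →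
      Tendsto (fun x : ℕ => (Set.ncard {n : ℕ | 1 ≤ n ∧ n ≤ x ∧ ∀ k : ℕ,
        (k : ℝ) ≤ b * Real.log (n : ℝ) → f n ≤ (T^[k] n : ℝ)} : ℝ) / (x : ℝ))
      atTop (nhds 0)) ∧
    (∀ ε : ℝ, 0 < ε → Tendsto (fun x : ℕ =>
      (Set.ncard {n : ℕ | 1 ≤ n ∧ n ≤ x ∧ ∃ k : ℕ, T^[k] n = 1 ∧ (∀ j < k, T^[j] n ≠ 1) ∧
        ¬ |(k : ℝ) - 2 / Real.log (4 / 3) * Real.log (n : ℝ)| ≤ ε * Real.log (n : ℝ)} : ℝ) /
          (x : ℝ)) atTop (nhds 0)) := by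
  rw [T_eq]
  exact ⟨H62z.almost_all, H62z.min_orbit_timed, H62z.normal_order⟩

end Pool.Agent.Results.MP_a1568a_nt.AlmostAll
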