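import Mathlib
import Pool.Agent.Lib.H78Q.M3

set_option autoImplicit false

/-!
Natural densities for the `3x+1` map.

(1) A set `R` of natural numbers with `n ∈ R ↔ T n ∈ R` for all large `n` has a natural density.
(2) For every `a` prime to `3` the set of the `n` whose orbit contains `a` has a natural density, at
least `c / a` with an absolute constant `c > 0`.
(3) On the invariant sets (`n ∈ R ↔ T n ∈ R` for all `n`) the natural density is countably additive,
and positive for each invariant set with a positive element.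
(4) The total stopping time: for every `c > 2 / log (4/3)` the set of the `n ≥ 1` with total stopping
time at most `c * log n` has a natural density `d > 0` that does not depend on `c`; for every
`c < 2 / log (4/3)` it has natural density `0`; and `d = 1` if and only if every `n ≥ 1` reaches `1`.
-/

namespace Pool.Agent.Results.MP_a1568a_nt.NaturalDensity

/-- The `3x+1` map. -/
def T (m : ℕ) : ℕ := if m % 2 = 0 then m / 2 else (3 * m + 1) / 2

/-- The set `S` has natural density `d`. -/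
def HasDensity (S : Set ℕ) (d : ℝ) : Prop :=
  Filter.Tendsto (fun x : ℕ => (Set.ncard {n : ℕ | n ∈ S ∧ n ≤ x} : ℝ) / x) Filter.atTop (nhds d)

/-- `R` is invariant: `n ∈ R` if and only if `T n ∈ R`. -/
def Invariant (R : Set ℕ) : Prop := ∀ n, n ∈ R ↔ T n ∈ R

/-- The set of the `n ≥ 1` with total stopping time at most `c * log n`. -/
def Fast (c : ℝ) : Set ℕ := {n | 1 ≤ n ∧ ∃ k : ℕ, (k : ℝ) ≤ c * Real.log n ∧ T^[k] n = 1}

theorem T_eq : T = H62z.T := rfl

theorem result :
    (∀ R : Set ℕ, (∃ B : ℕ, ∀ n, B ≤ n → (n ∈ R ↔ T n ∈ R)) → ∃ d : ℝ, HasDensity R d) ∧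
    (∃ c : ℝ, 0 < c ∧ ∀ a : ℕ, ¬ 3 ∣ a → ∃ d : ℝ, c / a ≤ d ∧ HasDensity {n | ∃ k, T^[k] n = a} d) ∧
    ((∀ (R : Set ℕ) (d : ℝ), Invariant R → (∃ a ∈ R, 1 ≤ a) → HasDensity R d → 0 < d) ∧
      ∀ (R : ℕ → Set ℕ) (d : ℕ → ℝ), (∀ i, Invariant (R i)) → (∀ i j, i ≠ j → Disjoint (R i) (R j)) →
        (∀ i, HasDensity (R i) (d i)) → Summable d ∧ HasDensity (⋃ i, R i) (∑' i, d i)) ∧
    (∃ d : ℝ, 0 < d ∧ (d = 1 ↔ ∀ n : ℕ, 1 ≤ n → ∃ k, T^[k] n = 1) ∧
      (∀ c : ℝ, 2 / Real.log (4 / 3) < c → HasDensity (Fast c) d) ∧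
      (∀ c : ℝ, c < 2 / Real.log (4 / 3) → HasDensity (Fast c) 0)) := by
  refine ⟨?_, H78Q.pred_density, ⟨?_, ?_⟩, H78Q.sigma⟩
  · rintro R ⟨B, hB⟩
    obtain ⟨d, -, -, hd⟩ := H78Q.nat_limit_ge R B hB
    exact ⟨d, hd⟩
  · intro R d hR h1 hd
    obtain ⟨d', -, -, hpos, hd'⟩ := H78Q.invariant_density R hR
    have : d = d' := tendsto_nhds_unique hd hd'
    rw [this]
    exact hpos h1
  · intro R d hR hdis hd
    exact H78Q.additive R hR hdis d hd

end Pool.Agent.Results.MP_a1568a_nt.NaturalDensity
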