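import Mathlib
import Pool.Agent.Lib.H78P.Final

set_option autoImplicit false

/-!
For every `ε > 0` there are `c, C > 0` such that, for every positive integer `a` not divisible by
`3` and every `x ≥ a`, at least `c * x / a` of the integers `n` with `c * x ≤ n ≤ x` reach `a` under
the `3x+1` map, and the first time `k` with `T^k(n) = a` satisfies
`|k - (2 / log (4/3)) * log (x / a)| ≤ ε * log (x / a) + C`.
-/

namespace Pool.Agent.Results.MP_a1568a_nt.PositiveDensity

theorem result (ε : ℝ) (hε : 0 < ε) :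
    ∃ c C : ℝ, 0 < c ∧ 0 < C ∧ ∀ a x : ℕ, ¬ 3 ∣ a → a ≤ x →
      c * ((x : ℝ) / (a : ℝ)) ≤
        (Set.ncard {n : ℕ | n ≤ x ∧ c * (x : ℝ) ≤ (n : ℝ) ∧
          ∃ k : ℕ, (fun m : ℕ => if m % 2 = 0 then m / 2 else (3 * m + 1) / 2)^[k] n = a ∧
            (∀ j < k, (fun m : ℕ => if m % 2 = 0 then m / 2 else (3 * m + 1) / 2)^[j] n ≠ a) ∧
            |(k : ℝ) - 2 / Real.log (4 / 3) * Real.log ((x : ℝ) / (a : ℝ))| ≤
              ε * Real.log ((x : ℝ) / (a : ℝ)) + C} : ℝ) :=
  H78P.positive_density ε hε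

end Pool.Agent.Results.MP_a1568a_nt.PositiveDensity
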