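import Mathlib
import Pool.Agent.Lib.H62s.Final

set_option autoImplicit false

/-!
Large stopping times of the `3x+1` map: the lower bound with the constant `41.677...` of the
Lagarias-Weiss heuristics.

Let `h(μ) = μ log μ - (μ-1) log (μ-1)`, `log 3/log 2 < μ ≤ 2` and `h(μ) > log 3` (that is
`μ > 1.64179...`), and let `γ = μ/(μ log 2 - log 3)`, which runs through `[6.95..., 41.677...)`.
(1) For every `ε > 0` and every `θ < (h(μ) - log 3)/(μ log 2 - log 3)` there are `c, C > 0` such that for all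
`a ≤ x` with `a` prime to `3` at least `c (x/a)^θ` integers `z` in `[c x, x]` reach `a` for the first
time after `k` steps with `|k - γ log(x/a)| ≤ ε log(x/a) + C`.
(2) For every `a` prime to `3` and every `c < γ` infinitely many `n` reach `a` for the first time after
more than `c log n` steps.
(3) `σ_∞(n) > 41.677 log n` for infinitely many `n` with `σ_∞(n)` finite.
-/

namespace Pool.Agent.Results.MP_a1568a_nt.SharpLowerBound

/-- The `3x+1` map. -/
def T (m : ℕ) : ℕ := if m % 2 = 0 then m / 2 else (3 * m + 1) / 2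

/-- `h(μ) = μ log μ - (μ-1) log (μ-1)`. -/
noncomputable def h (μ : ℝ) : ℝ := μ * Real.log μ - (μ - 1) * Real.log (μ - 1)

theorem T_eq : T = H62s.T := rfl

theorem h_eq : h = H62s.hh := rfl

theorem result :
    (∀ μ : ℝ, Real.log 3 / Real.log 2 < μ → μ ≤ 2 → Real.log 3 < h μ →
      ∀ ε θ : ℝ, 0 < ε → θ < (h μ - Real.log 3) / (μ * Real.log 2 - Real.log 3) →
      ∃ c C : ℝ, 0 < c ∧ 0 < C ∧ ∀ a x : ℕ, ¬ 3 ∣ a → a ≤ x →
        c * ((x : ℝ) / (a : ℝ)) ^ θ ≤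
          (Set.ncard {z : ℕ | z ≤ x ∧ c * (x : ℝ) ≤ (z : ℝ) ∧
            ∃ k : ℕ, T^[k] z = a ∧ (∀ j < k, T^[j] z ≠ a) ∧
              |(k : ℝ) - μ / (μ * Real.log 2 - Real.log 3) * Real.log ((x : ℝ) / (a : ℝ))| ≤
                ε * Real.log ((x : ℝ) / (a : ℝ)) + C} : ℝ)) ∧
    (∀ μ : ℝ, Real.log 3 / Real.log 2 < μ → μ ≤ 2 → Real.log 3 < h μ →
      ∀ a : ℕ, ¬ 3 ∣ a → ∀ c : ℝ, c < μ / (μ * Real.log 2 - Real.log 3) →
        {n : ℕ | ∃ k : ℕ, T^[k] n = a ∧ (∀ j < k, T^[j] n ≠ a) ∧ c * Real.log n < k}.Infinite) ∧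
    {n : ℕ | ∃ k : ℕ, T^[k] n = 1 ∧ (∀ j < k, T^[j] n ≠ 1) ∧
      41.677 * Real.log n < k}.Infinite := by
  rw [T_eq, h_eq]
  exact ⟨fun μ h1 h2 h3 ε θ hε hθ => H62s.count_all μ h1 h2 h3 ε hε θ hθ,
    fun μ h1 h2 h3 a ha c hc => H62s.many μ h1 h2 h3 a ha c hc, H62s.main_num⟩

end Pool.Agent.Results.MP_a1568a_nt.SharpLowerBound
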